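import Pool.Agent.H143PR.Final

/-!
# Pattern races near the uniform distribution are not transitive (Q1 of MP_8d137a_pr: answer no)

`H143PR.OccursAt`, `H143PR.tau`, `H143PR.source`, `H143PR.winProb` (in
`Pool/Agent/H143PR/Race.lean`) are the occurrence of a word at a given index, the waiting time
`τ_A ∈ ℕ∞`, the law of the i.i.d. source and `Pr(A > B)` (two independent copies of the source,
ties broken by a fair coin).

Take the alphabet `{0, ..., 6}` and the words `232`, `010`, `454` of length `3`.  Arbitrarily close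
to the uniform distribution on seven letters there is a (fully supported) distribution for which
`232 → 010 → 454 → 232` is a directed 3-cycle of the head-to-head relation.
-/

namespace Pool.Agent.Results.MP_8d137a_pr.CyclesNearUniform

open H143PR

theorem result :
    (∀ ε : ℝ, 0 < ε → ∃ p : PMF (Fin 7), (∀ i, |(p i).toReal - 1 / 7| < ε) ∧
      1 / 2 < winProb p ![2, 3, 2] ![0, 1, 0] ∧
      1 / 2 < winProb p ![0, 1, 0] ![4, 5, 4] ∧
      1 / 2 < winProb p ![4, 5, 4] ![2, 3, 2]) ∧
    ¬ ∀ s k : ℕ, 2 ≤ s → 2 ≤ k → ∃ ε : ℝ, 0 < ε ∧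
      ∀ p : PMF (Fin s), (∀ i, |(p i).toReal - 1 / s| < ε) → ∀ A B C : Fin k → Fin s,
        ¬ (1 / 2 < winProb p A B ∧ 1 / 2 < winProb p B C ∧ 1 / 2 < winProb p C A) := by
  refine ⟨main, ?_⟩
  intro h
  obtain ⟨ε, hε, h⟩ := h 7 3 (by norm_num) (by norm_num)
  obtain ⟨p, hp, h1, h2, h3⟩ := main ε hε
  refine h p (fun i => ?_) _ _ _ ⟨h1, h2, h3⟩
  have := hp i
  norm_num at this ⊢
  exact this

end Pool.Agent.Results.MP_8d137a_pr.CyclesNearUniform
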